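import Pool.Agent.helper29.NS.Spec2

/-!
# UB: from the boundary into the domain
-/

namespace NS

open MeasureTheory Filter Topology Set

theorem UB_open (c : ℝ × ℝ) (R : ℝ) : IsOpen (Dsc c R) := by
  have h : Continuous fun q : ℝ × ℝ => (q.1 - c.1) ^ 2 + (q.2 - c.2) ^ 2 := by fun_prop
  exact isOpen_lt h continuous_const

theorem UB_conv (c : ℝ × ℝ) (R : ℝ) : Convex ℝ (Dsc c R) := by
  intro p hp q hq a b ha hb hab
  have hp' : (p.1 - c.1) ^ 2 + (p.2 - c.2) ^ 2 < R ^ 2 := hp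
  have hq' : (q.1 - c.1) ^ 2 + (q.2 - c.2) ^ 2 < R ^ 2 := hq
  show (a * p.1 + b * q.1 - c.1) ^ 2 + (a * p.2 + b * q.2 - c.2) ^ 2 < R ^ 2
  have hb' : b = 1 - a := by linarith
  subst hb'
  have e1 : (a * p.1 + (1 - a) * q.1 - c.1) ^ 2 + (a * p.2 + (1 - a) * q.2 - c.2) ^ 2 =
      a * ((p.1 - c.1) ^ 2 + (p.2 - c.2) ^ 2) + (1 - a) * ((q.1 - c.1) ^ 2 + (q.2 - c.2) ^ 2) -
        a * (1 - a) * ((p.1 - q.1) ^ 2 + (p.2 - q.2) ^ 2) := by ring
  rw [e1]
  have h3 : 0 ≤ a * (1 - a) * ((p.1 - q.1) ^ 2 + (p.2 - q.2) ^ 2) := by positivity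
  rcases ha.eq_or_lt with h | h
  · subst h; linarith
  · nlinarith [mul_lt_mul_of_pos_left hp' h, mul_le_mul_of_nonneg_left hq'.le hb]

/-- the exterior of the domain near a boundary point -/
theorem UB_ext {Ω : Set (ℝ × ℝ)} {c : ℝ × ℝ} {θ δ : ℝ} {f : ℝ → ℝ} (hc : Chart Ω c θ δ f)
    {R : ℝ} (hR : 0 < R) :
    (∃ q ∈ Dsc c R, q ∈ Ω) ∧
      ∃ W : Set (ℝ × ℝ), IsOpen W ∧ W.Nonempty ∧ W ⊆ Dsc c R ∧ ∀ q ∈ W, q ∉ Ω := by
  have hδ := hc.pos
  have hcs := Real.cos_sq_add_sin_sq θ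
  obtain ⟨r0, hr0, hr1, hr2⟩ : ∃ r0 : ℝ, 0 < r0 ∧ r0 < R ∧ r0 < δ := by
    refine ⟨min R δ / 2, ?_, ?_, ?_⟩
    · have := lt_min hR hδ; linarith
    · have := min_le_left R δ; have := lt_min hR hδ; linarith
    · have := min_le_right R δ; have := lt_min hR hδ; linarith
  have hd : ∀ r : ℝ, |r| < R → pt θ c 0 r ∈ Dsc c R := by
    intro r hr
    show (c.1 + 0 * Real.cos θ - r * Real.sin θ - c.1) ^ 2 +
      (c.2 + 0 * Real.sin θ + r * Real.cos θ - c.2) ^ 2 < R ^ 2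
    have e1 : (c.1 + 0 * Real.cos θ - r * Real.sin θ - c.1) ^ 2 +
        (c.2 + 0 * Real.sin θ + r * Real.cos θ - c.2) ^ 2 =
        r ^ 2 * (Real.cos θ ^ 2 + Real.sin θ ^ 2) := by ring
    rw [e1, hcs, mul_one]
    exact sq_lt_sq' (by linarith [neg_lt_of_abs_lt hr]) (lt_of_abs_lt hr)
  refine ⟨⟨pt θ c 0 r0, hd r0 (by rwa [abs_of_pos hr0]), ?_⟩, ?_⟩
  · rw [hc.graph 0 r0 (by simpa using hδ) (by rwa [abs_of_pos hr0]), hc.f0]
    exact hr0
  · let s : ℝ × ℝ → ℝ := fun q => (q.1 - c.1) * Real.cos θ + (q.2 - c.2) * Real.sin θ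
    let r : ℝ × ℝ → ℝ := fun q => -(q.1 - c.1) * Real.sin θ + (q.2 - c.2) * Real.cos θ
    have hs : Continuous s := by fun_prop
    have hr : Continuous r := by fun_prop
    have hpt : ∀ q, pt θ c (s q) (r q) = q := by
      intro q
      unfold pt
      apply Prod.ext
      · show c.1 + ((q.1 - c.1) * Real.cos θ + (q.2 - c.2) * Real.sin θ) * Real.cos θ -
          (-(q.1 - c.1) * Real.sin θ + (q.2 - c.2) * Real.cos θ) * Real.sin θ = q.1
        linear_combination (q.1 - c.1) * hcs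
      · show c.2 + ((q.1 - c.1) * Real.cos θ + (q.2 - c.2) * Real.sin θ) * Real.sin θ +
          (-(q.1 - c.1) * Real.sin θ + (q.2 - c.2) * Real.cos θ) * Real.cos θ = q.2
        linear_combination (q.2 - c.2) * hcs
    have hs0 : s (pt θ c 0 (-r0)) = 0 := by
      show (c.1 + 0 * Real.cos θ - -r0 * Real.sin θ - c.1) * Real.cos θ +
        (c.2 + 0 * Real.sin θ + -r0 * Real.cos θ - c.2) * Real.sin θ = 0
      ring
    have hr0' : r (pt θ c 0 (-r0)) = -r0 := by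
      show -(c.1 + 0 * Real.cos θ - -r0 * Real.sin θ - c.1) * Real.sin θ +
        (c.2 + 0 * Real.sin θ + -r0 * Real.cos θ - c.2) * Real.cos θ = -r0
      linear_combination (-r0) * hcs
    have hf : Continuous f := hc.smooth.continuous
    refine ⟨Dsc c R ∩ ({q | |s q| < δ} ∩ ({q | |r q| < δ} ∩ {q | r q < f (s q)})), ?_, ?_, ?_, ?_⟩
    · exact (UB_open c R).inter ((isOpen_lt hs.abs continuous_const).inter
        ((isOpen_lt hr.abs continuous_const).inter (isOpen_lt hr (hf.comp hs))))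
    · refine ⟨pt θ c 0 (-r0), hd _ (by rwa [abs_neg, abs_of_pos hr0]), ?_, ?_, ?_⟩
      · show |s (pt θ c 0 (-r0))| < δ
        rw [hs0, abs_zero]; exact hδ
      · show |r (pt θ c 0 (-r0))| < δ
        rw [hr0', abs_neg, abs_of_pos hr0]; exact hr2
      · show r (pt θ c 0 (-r0)) < f (s (pt θ c 0 (-r0)))
        rw [hs0, hr0', hc.f0]; linarith
    · intro q hq; exact hq.1
    · rintro q ⟨-, h1, h2, h3⟩ hq
      rw [← hpt q, hc.graph _ _ h1 h2] at hq
      exact lt_asymm hq h3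

/-- derivatives of the function extended by zero -/
theorem UB_der {A O : Set (ℝ × ℝ × ℝ)} {F : ℝ × ℝ × ℝ → ℝ} (hO : IsOpen O) (hF : ContDiff ℝ 2 F)
    (h1 : ContDiffOn ℝ 2 (A.indicator F) O)
    (h2 : ∀ z ∈ O, fderiv ℝ (A.indicator F) z = A.indicator (fderiv ℝ F) z)
    (h3 : ∀ z ∈ O, fderiv ℝ (fderiv ℝ (A.indicator F)) z =
      A.indicator (fderiv ℝ (fderiv ℝ F)) z) {z : ℝ × ℝ × ℝ} (hz : z ∈ O) :
    (z ∈ A → A.indicator F z = F z ∧ dt (A.indicator F) z = dt F z ∧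
      dx (A.indicator F) z = dx F z ∧ dy (A.indicator F) z = dy F z ∧
      dx (dx (A.indicator F)) z = dx (dx F) z ∧ dy (dy (A.indicator F)) z = dy (dy F) z) ∧
    (z ∉ A → A.indicator F z = 0 ∧ dt (A.indicator F) z = 0 ∧
      dx (A.indicator F) z = 0 ∧ dy (A.indicator F) z = 0 ∧
      dx (dx (A.indicator F)) z = 0 ∧ dy (dy (A.indicator F)) z = 0) := by
  have hd : DifferentiableAt ℝ (fderiv ℝ (A.indicator F)) z :=
    ((h1.contDiffAt (hO.mem_nhds hz)).fderiv_right (m := 1) (by norm_num)).differentiableAt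
      (by norm_num)
  have hd' : DifferentiableAt ℝ (fderiv ℝ F) z :=
    ((hF.fderiv_right (m := 1) (by norm_num)).differentiable (by norm_num)) z
  have key : ∀ (G : ℝ × ℝ × ℝ → ℝ) (e : ℝ × ℝ × ℝ), DifferentiableAt ℝ (fderiv ℝ G) z →
      fderiv ℝ (fun y => fderiv ℝ G y e) z e = fderiv ℝ (fderiv ℝ G) z e e := by
    intro G e hG
    rw [fderiv_clm_apply hG (differentiableAt_const e)]
    simp
  have k1 : dx (dx (A.indicator F)) z = fderiv ℝ (fderiv ℝ (A.indicator F)) z (0, 1, 0) (0, 1, 0) :=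
    key _ _ hd
  have k2 : dy (dy (A.indicator F)) z = fderiv ℝ (fderiv ℝ (A.indicator F)) z (0, 0, 1) (0, 0, 1) :=
    key _ _ hd
  have k3 : dx (dx F) z = fderiv ℝ (fderiv ℝ F) z (0, 1, 0) (0, 1, 0) := key _ _ hd'
  have k4 : dy (dy F) z = fderiv ℝ (fderiv ℝ F) z (0, 0, 1) (0, 0, 1) := key _ _ hd'
  constructor
  · intro hA
    rw [k1, k2, k3, k4, h3 z hz]
    unfold dt dx dy
    rw [h2 z hz]
    simp only [Set.indicator_of_mem hA, and_self]
  · intro hA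
    rw [k1, k2, h3 z hz]
    unfold dt dx dy
    rw [h2 z hz]
    simp only [Set.indicator_of_notMem hA]
    simp

/-- `a = b = 0` on a nonempty open subset of `Ω` -/
theorem UB (hGL : GL_stmt) (hUI : UI_stmt) : UB_stmt := by
  intro Ω ν a b m n c θ δ f hΩ hν hDM hc ⟨V', hV', hz⟩
  obtain ⟨R, hR, hRV⟩ := Metric.mem_nhds_iff.1 hV'
  have hDV : Dsc c R ⊆ V' := by
    intro q hq
    apply hRV
    have hq' : (q.1 - c.1) ^ 2 + (q.2 - c.2) ^ 2 < R ^ 2 := hq
    rw [Metric.mem_ball, Prod.dist_eq, max_lt_iff, Real.dist_eq, Real.dist_eq]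
    exact ⟨abs_lt_of_sq_lt_sq (by nlinarith [sq_nonneg (q.2 - c.2)]) hR.le,
      abs_lt_of_sq_lt_sq (by nlinarith [sq_nonneg (q.1 - c.1)]) hR.le⟩
  obtain ⟨⟨q1, hq1, hq1'⟩, W, hW1, hW2, hW3, hW4⟩ := UB_ext hc hR
  obtain ⟨K, hK⟩ := hDM.bd
  set A : Set (ℝ × ℝ × ℝ) := univ ×ˢ Ω with hA
  set O : Set (ℝ × ℝ × ℝ) := univ ×ˢ Dsc c R with hO
  have hAo : IsOpen A := isOpen_univ.prod hΩ
  have hOo : IsOpen O := isOpen_univ.prod (UB_open c R)
  have hfr : ∀ F ∈ ({a, b} : Set (ℝ × ℝ × ℝ → ℝ)), ∀ z ∈ frontier A ∩ O,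
      F z = 0 ∧ fderiv ℝ F z = 0 ∧ fderiv ℝ (fderiv ℝ F) z = 0 := by
    rintro F hF ⟨t, q⟩ ⟨h1, h2⟩
    rw [hA, frontier_univ_prod_eq] at h1
    exact hz t q ⟨h1.2, hDV h2.2⟩ F hF
  have ha2 : ContDiff ℝ 2 a := hDM.ca.of_le (by norm_num)
  have hb2 : ContDiff ℝ 2 b := hDM.cb.of_le (by norm_num)
  obtain ⟨ga1, ga2, ga3⟩ := hGL A O a hAo hOo ha2 (hfr a (by simp))
  obtain ⟨gb1, gb2, gb3⟩ := hGL A O b hAo hOo hb2 (hfr b (by simp))
  have key := hUI (Dsc c R) ν (2 * K) (A.indicator a) (A.indicator b) (UB_open c R)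
    (UB_conv c R).isPreconnected hν ga1 gb1 (by
      intro t q hq
      have hzO : ((t, q) : ℝ × ℝ × ℝ) ∈ O := ⟨mem_univ _, hq⟩
      have da := UB_der hOo ha2 ga1 ga2 ga3 hzO
      have db := UB_der hOo hb2 gb1 gb2 gb3 hzO
      by_cases hqΩ : q ∈ Ω
      · have hzA : ((t, q) : ℝ × ℝ × ℝ) ∈ A := ⟨mem_univ _, hqΩ⟩
        obtain ⟨a0, a1, a2, a3, a4, a5⟩ := da.1 hzA
        obtain ⟨b0, b1, b2, b3, b4, b5⟩ := db.1 hzA
        unfold heat
        rw [a0, a1, a2, a3, a4, a5, b0, b1, b2, b3, b4, b5]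
        have ea := hDM.ea t q hqΩ
        have eb := hDM.eb t q hqΩ
        obtain ⟨K1, K2, K3, K4, K5, K6⟩ := hK (t, q)
        have hK0 : 0 ≤ K := (abs_nonneg _).trans K1
        have e1 : dt a (t, q) - ν * (dx (dx a) (t, q) + dy (dy a) (t, q)) =
            -(m (t, q) * dx a (t, q) + n (t, q) * dy a (t, q)
              + a (t, q) * dx m (t, q) + b (t, q) * dy m (t, q)) := by
          rw [← ea]; ring
        have e2 : dt b (t, q) - ν * (dx (dx b) (t, q) + dy (dy b) (t, q)) =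
            -(m (t, q) * dx b (t, q) + n (t, q) * dy b (t, q)
              + a (t, q) * dx n (t, q) + b (t, q) * dy n (t, q)) := by
          rw [← eb]; ring
        rw [e1, e2, abs_neg, abs_neg]
        have t1 : ∀ x y : ℝ, |x| ≤ K → |x * y| ≤ K * |y| := fun x y hx => by
          rw [abs_mul]; exact mul_le_mul_of_nonneg_right hx (abs_nonneg _)
        have t2 : ∀ x y : ℝ, |x| ≤ K → |y * x| ≤ K * |y| := fun x y hx => by
          rw [mul_comm]; exact t1 x y hx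
        have u1 : |m (t, q) * dx a (t, q) + n (t, q) * dy a (t, q)
            + a (t, q) * dx m (t, q) + b (t, q) * dy m (t, q)| ≤
            K * |dx a (t, q)| + K * |dy a (t, q)| + K * |a (t, q)| + K * |b (t, q)| := by
          refine (abs_add_le _ _).trans (add_le_add ((abs_add_le _ _).trans (add_le_add
            ((abs_add_le _ _).trans (add_le_add ?_ ?_)) ?_)) ?_)
          · exact t1 _ _ K1
          · exact t1 _ _ K2
          · exact t2 _ _ K3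
          · exact t2 _ _ K4
        have u2 : |m (t, q) * dx b (t, q) + n (t, q) * dy b (t, q)
            + a (t, q) * dx n (t, q) + b (t, q) * dy n (t, q)| ≤
            K * |dx b (t, q)| + K * |dy b (t, q)| + K * |a (t, q)| + K * |b (t, q)| := by
          refine (abs_add_le _ _).trans (add_le_add ((abs_add_le _ _).trans (add_le_add
            ((abs_add_le _ _).trans (add_le_add ?_ ?_)) ?_)) ?_)
          · exact t1 _ _ K1
          · exact t1 _ _ K2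
          · exact t2 _ _ K5
          · exact t2 _ _ K6
        nlinarith [mul_nonneg hK0 (abs_nonneg (dx a (t, q))),
          mul_nonneg hK0 (abs_nonneg (dy a (t, q))), mul_nonneg hK0 (abs_nonneg (dx b (t, q))),
          mul_nonneg hK0 (abs_nonneg (dy b (t, q)))]
      · have hzA : ((t, q) : ℝ × ℝ × ℝ) ∉ A := fun h => hqΩ h.2
        obtain ⟨a0, a1, a2, a3, a4, a5⟩ := da.2 hzA
        obtain ⟨b0, b1, b2, b3, b4, b5⟩ := db.2 hzA
        unfold heat
        rw [a0, a1, a2, a3, a4, a5, b0, b1, b2, b3, b4, b5]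
        simp)
    ⟨W, hW1, hW2, hW3, fun t q hq => by
      have hzA : ((t, q) : ℝ × ℝ × ℝ) ∉ A := fun h => hW4 q hq h.2
      exact ⟨Set.indicator_of_notMem hzA _, Set.indicator_of_notMem hzA _⟩⟩
  refine ⟨Dsc c R ∩ Ω, (UB_open c R).inter hΩ, ⟨q1, hq1, hq1'⟩, inter_subset_right, ?_⟩
  rintro t q ⟨hq, hqΩ⟩
  have hzA : ((t, q) : ℝ × ℝ × ℝ) ∈ A := ⟨mem_univ _, hqΩ⟩
  have := key t q hq
  rwa [Set.indicator_of_mem hzA, Set.indicator_of_mem hzA] at this

end NS
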