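import Pool.Agent.helper29.NS.SpecD

set_option autoImplicit false

/-!
# Project ns, module AV: a boundary of class C2 is strictly convex at the endpoint of an arc
-/

namespace NS

open MeasureTheory Filter Topology Set

theorem AV_zero {g : ℝ → ℝ} {a b : ℝ} (hab : a < b) (hg : Continuous g)
    (h : ∀ x ∈ Ioo a b, g x = 0) : g b = 0 := by
  have h1 : b ∈ closure (Ioo a b) := by
    rw [closure_Ioo hab.ne]
    exact right_mem_Icc.2 hab.le
  have h2 : IsClosed {x | g x = 0} := isClosed_eq hg continuous_const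
  exact closure_minimal (fun x hx => h x hx) h2 h1

theorem AV_deriv {g : ℝ → ℝ} {a b : ℝ} (h : ∀ x ∈ Ioo a b, g x = 0) :
    ∀ x ∈ Ioo a b, deriv g x = 0 := by
  intro x hx
  have h1 : g =ᶠ[𝓝 x] fun _ => 0 := by
    filter_upwards [isOpen_Ioo.mem_nhds hx] with y hy
    exact h y hy
  rw [h1.deriv_eq]
  simp

theorem AV_pt (R θ α2 u v : ℝ) :
    pt θ (cp R α2) (u - R * Real.cos (α2 - θ)) (v - R * Real.sin (α2 - θ)) =
      (u * Real.cos θ - v * Real.sin θ, u * Real.sin θ + v * Real.cos θ) := by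
  have h1 : Real.cos α2 = Real.cos (α2 - θ) * Real.cos θ - Real.sin (α2 - θ) * Real.sin θ := by
    rw [← Real.cos_add]
    congr 1
    ring
  have h2 : Real.sin α2 = Real.sin (α2 - θ) * Real.cos θ + Real.cos (α2 - θ) * Real.sin θ := by
    rw [← Real.sin_add]
    congr 1
    ring
  unfold pt cp
  simp only
  rw [h1, h2]
  ext
  · simp only
    ring
  · simp only
    ring

theorem AV_nrm (θ u v : ℝ) :
    (u * Real.cos θ - v * Real.sin θ) ^ 2 + (u * Real.sin θ + v * Real.cos θ) ^ 2 =
      u ^ 2 + v ^ 2 := by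
  have h := Real.sin_sq_add_cos_sq θ
  have e : (u * Real.cos θ - v * Real.sin θ) ^ 2 + (u * Real.sin θ + v * Real.cos θ) ^ 2 =
      (u ^ 2 + v ^ 2) * (Real.sin θ ^ 2 + Real.cos θ ^ 2) := by ring
  rw [e, h, mul_one]

theorem AV_cp (R α θ : ℝ) : cp R α = (R * Real.cos (α - θ) * Real.cos θ - R * Real.sin (α - θ) * Real.sin θ,
    R * Real.cos (α - θ) * Real.sin θ + R * Real.sin (α - θ) * Real.cos θ) := by
  have h1 : Real.cos α = Real.cos (α - θ) * Real.cos θ - Real.sin (α - θ) * Real.sin θ := by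
    rw [← Real.cos_add]
    congr 1
    ring
  have h2 : Real.sin α = Real.sin (α - θ) * Real.cos θ + Real.cos (α - θ) * Real.sin θ := by
    rw [← Real.sin_add]
    congr 1
    ring
  unfold cp
  rw [h1, h2]
  ext
  · simp only
    ring
  · simp only
    ring

/-- On the arc near the endpoint: the chart function describes the circle, and the centre lies
above. -/
theorem AV_arc (Ω : Set (ℝ × ℝ)) (R α2 θ δ : ℝ) (f : ℝ → ℝ) (hR : 0 < R)
    (hC : Chart Ω (cp R α2) θ δ f) (α : ℝ) (hα : InArc Ω R (cp R α))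
    (hs : |R * Real.cos (α - θ) - R * Real.cos (α2 - θ)| < δ)
    (hr : |R * Real.sin (α - θ) - R * Real.sin (α2 - θ)| < δ) :
    f (R * Real.cos (α - θ) - R * Real.cos (α2 - θ)) =
      R * Real.sin (α - θ) - R * Real.sin (α2 - θ) ∧ Real.sin (α - θ) < 0 := by
  obtain ⟨δ', hδ', harc⟩ := hα
  have hcs := Real.sin_sq_add_cos_sq (α - θ)
  -- points in the coordinates centred at the origin
  have hin : ∀ u v : ℝ, |u - R * Real.cos (α2 - θ)| < δ → |v - R * Real.sin (α2 - θ)| < δ →
      (u - R * Real.cos (α - θ)) ^ 2 + (v - R * Real.sin (α - θ)) ^ 2 < δ' ^ 2 →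
      (f (u - R * Real.cos (α2 - θ)) < v - R * Real.sin (α2 - θ) ↔ u ^ 2 + v ^ 2 < R ^ 2) := by
    intro u v hu hv huv
    rw [← hC.graph _ _ hu hv, AV_pt]
    have hmem : (u * Real.cos θ - v * Real.sin θ, u * Real.sin θ + v * Real.cos θ) ∈
        Dsc (cp R α) δ' := by
      show (_ - (cp R α).1) ^ 2 + (_ - (cp R α).2) ^ 2 < δ' ^ 2
      rw [AV_cp R α θ]
      have := AV_nrm θ (u - R * Real.cos (α - θ)) (v - R * Real.sin (α - θ))
      rw [← this] at huv
      refine lt_of_eq_of_lt ?_ huv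
      simp only
      ring
    rw [harc _ hmem]
    simp only
    rw [AV_nrm]
  have h1 : ¬ f (R * Real.cos (α - θ) - R * Real.cos (α2 - θ)) <
      R * Real.sin (α - θ) - R * Real.sin (α2 - θ) := by
    rw [hin _ _ hs hr (by rw [sub_self, sub_self]; nlinarith [pow_pos hδ' 2])]
    have : (R * Real.cos (α - θ)) ^ 2 + (R * Real.sin (α - θ)) ^ 2 = R ^ 2 := by
      nlinarith
    rw [this]
    exact lt_irrefl _
  have hfc : Continuous f := hC.smooth.continuous
  have h2 : f (R * Real.cos (α - θ) - R * Real.cos (α2 - θ)) ≤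
      R * Real.sin (α - θ) - R * Real.sin (α2 - θ) := by
    have c1 : Tendsto (fun ε : ℝ => (1 - ε) * (R * Real.cos (α - θ))) (𝓝[>] 0)
        (𝓝 (R * Real.cos (α - θ))) := by
      have : ContinuousAt (fun ε : ℝ => (1 - ε) * (R * Real.cos (α - θ))) 0 := by fun_prop
      have h := this.tendsto
      simp only [sub_zero, one_mul] at h
      exact h.mono_left nhdsWithin_le_nhds
    have c2 : Tendsto (fun ε : ℝ => (1 - ε) * (R * Real.sin (α - θ))) (𝓝[>] 0)
        (𝓝 (R * Real.sin (α - θ))) := by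
      have : ContinuousAt (fun ε : ℝ => (1 - ε) * (R * Real.sin (α - θ))) 0 := by fun_prop
      have h := this.tendsto
      simp only [sub_zero, one_mul] at h
      exact h.mono_left nhdsWithin_le_nhds
    have c3 : Tendsto (fun ε : ℝ => f ((1 - ε) * (R * Real.cos (α - θ)) - R * Real.cos (α2 - θ)))
        (𝓝[>] 0) (𝓝 (f (R * Real.cos (α - θ) - R * Real.cos (α2 - θ)))) :=
      (hfc.tendsto _).comp (c1.sub_const _)
    have c4 := c2.sub_const (R * Real.sin (α2 - θ))
    refine le_of_tendsto_of_tendsto c3 c4 ?_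
    have e1 : ∀ᶠ ε in 𝓝[>] (0 : ℝ), |(1 - ε) * (R * Real.cos (α - θ)) - R * Real.cos (α2 - θ)| < δ :=
      ((c1.sub_const _).abs).eventually_lt_const hs
    have e2 : ∀ᶠ ε in 𝓝[>] (0 : ℝ), |(1 - ε) * (R * Real.sin (α - θ)) - R * Real.sin (α2 - θ)| < δ :=
      ((c2.sub_const _).abs).eventually_lt_const hr
    have e3 : ∀ᶠ ε in 𝓝[>] (0 : ℝ), ε < 1 ∧ 0 < ε := by
      have : ∀ᶠ ε in 𝓝[>] (0 : ℝ), ε < 1 := by
        apply nhdsWithin_le_nhds
        exact eventually_lt_nhds (by norm_num)
      filter_upwards [this, self_mem_nhdsWithin] with ε h1 h2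
      exact ⟨h1, h2⟩
    have e4 : ∀ᶠ ε in 𝓝[>] (0 : ℝ), ((1 - ε) * (R * Real.cos (α - θ)) - R * Real.cos (α - θ)) ^ 2 +
        ((1 - ε) * (R * Real.sin (α - θ)) - R * Real.sin (α - θ)) ^ 2 < δ' ^ 2 := by
      have t := ((c1.sub_const (R * Real.cos (α - θ))).pow 2).add
        ((c2.sub_const (R * Real.sin (α - θ))).pow 2)
      refine t.eventually_lt_const ?_
      rw [sub_self, sub_self]
      nlinarith [pow_pos hδ' 2]
    filter_upwards [e1, e2, e3, e4] with ε g1 g2 g3 g4
    have := (hin _ _ g1 g2 g4).2 ?_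
    · exact this.le
    · have e : ((1 - ε) * (R * Real.cos (α - θ))) ^ 2 + ((1 - ε) * (R * Real.sin (α - θ))) ^ 2 =
          (1 - ε) ^ 2 * (R ^ 2 * (Real.sin (α - θ) ^ 2 + Real.cos (α - θ) ^ 2)) := by ring
      rw [e, hcs, mul_one]
      have h3 : (1 - ε) ^ 2 < 1 := by nlinarith [g3.1, g3.2]
      nlinarith [pow_pos hR 2]
  have h3 : f (R * Real.cos (α - θ) - R * Real.cos (α2 - θ)) =
      R * Real.sin (α - θ) - R * Real.sin (α2 - θ) := le_antisymm h2 (not_lt.1 h1)
  refine ⟨h3, ?_⟩
  by_contra hneg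
  rw [not_lt] at hneg
  have hd : 0 < δ - |R * Real.sin (α - θ) - R * Real.sin (α2 - θ)| := by linarith
  obtain ⟨κ, hκ⟩ : ∃ κ, κ = min (δ' / 2) ((δ - |R * Real.sin (α - θ) - R * Real.sin (α2 - θ)|) / 2) :=
    ⟨_, rfl⟩
  have hκ0 : 0 < κ := by rw [hκ]; exact lt_min (by positivity) (by positivity)
  have hκ1 : κ ≤ δ' / 2 := by rw [hκ]; exact min_le_left _ _
  have hκ2 : κ ≤ (δ - |R * Real.sin (α - θ) - R * Real.sin (α2 - θ)|) / 2 := by
    rw [hκ]; exact min_le_right _ _
  have h4 : |R * Real.sin (α - θ) + κ - R * Real.sin (α2 - θ)| < δ := by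
    have : R * Real.sin (α - θ) + κ - R * Real.sin (α2 - θ) =
      (R * Real.sin (α - θ) - R * Real.sin (α2 - θ)) + κ := by ring
    rw [this]
    refine lt_of_le_of_lt (abs_add_le _ _) ?_
    rw [abs_of_pos hκ0]
    linarith
  have h5 := (hin (R * Real.cos (α - θ)) (R * Real.sin (α - θ) + κ) hs h4 (by
    have : (R * Real.cos (α - θ) - R * Real.cos (α - θ)) ^ 2 +
      (R * Real.sin (α - θ) + κ - R * Real.sin (α - θ)) ^ 2 = κ ^ 2 := by ring
    rw [this]
    nlinarith)).1 (by rw [h3]; linarith)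
  have h6 : 0 ≤ R * Real.sin (α - θ) := mul_nonneg hR.le hneg
  have h7 : (R * Real.cos (α - θ)) ^ 2 + (R * Real.sin (α - θ)) ^ 2 = R ^ 2 := by nlinarith
  nlinarith

theorem AV : AV_stmt := by
  intro Ω R α1 α2 θ δ f _ hR h12 harc hC
  obtain ⟨β, hβ⟩ : ∃ β, β = α2 - θ := ⟨_, rfl⟩
  have hδ := hC.pos
  -- the neighbourhood
  have hc1 : Continuous fun α : ℝ => R * Real.cos (α - θ) - R * Real.cos (α2 - θ) := by fun_prop
  have hc2 : Continuous fun α : ℝ => R * Real.sin (α - θ) - R * Real.sin (α2 - θ) := by fun_prop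
  have hev : ∀ᶠ α in 𝓝 α2, |R * Real.cos (α - θ) - R * Real.cos (α2 - θ)| < δ ∧
      |R * Real.sin (α - θ) - R * Real.sin (α2 - θ)| < δ := by
    have t1 := (hc1.tendsto α2).abs
    have t2 := (hc2.tendsto α2).abs
    simp only [sub_self, abs_zero] at t1 t2
    exact (t1.eventually_lt_const hδ).and (t2.eventually_lt_const hδ)
  obtain ⟨η, hη, hη'⟩ := Metric.eventually_nhds_iff.1 hev
  obtain ⟨a, ha⟩ : ∃ a, a = max α1 (α2 - η) := ⟨_, rfl⟩
  have ha2 : a < α2 := by rw [ha]; exact max_lt h12 (by linarith)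
  have key : ∀ α ∈ Ioo a α2, f (R * Real.cos (α - θ) - R * Real.cos (α2 - θ)) =
      R * Real.sin (α - θ) - R * Real.sin (α2 - θ) ∧ Real.sin (α - θ) < 0 := by
    intro α hα
    have h1 : α1 ≤ α := by
      have := le_max_left α1 (α2 - η)
      rw [← ha] at this
      linarith [hα.1]
    have h2 : α2 - η < α := by
      have := le_max_right α1 (α2 - η)
      rw [← ha] at this
      linarith [hα.1]
    have h3 : dist α α2 < η := by
      rw [Real.dist_eq, abs_lt]
      constructor
      · linarith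
      · linarith [hα.2]
    obtain ⟨h4, h5⟩ := hη' h3
    exact AV_arc Ω R α2 θ δ f hR hC α (harc α h1 hα.2) h4 h5
  -- derivatives
  have hf1 : Differentiable ℝ f := hC.smooth.differentiable (by norm_num)
  have hf2 : ContDiff ℝ 1 (deriv f) := by
    have h := hC.smooth
    have e : (2 : WithTop ℕ∞) = 1 + 1 := by norm_num
    rw [e, contDiff_succ_iff_deriv] at h
    exact h.2.2
  have hf3 : Differentiable ℝ (deriv f) := hf2.differentiable (by norm_num)
  have hf4 : Continuous (deriv (deriv f)) := hf2.continuous_deriv (by norm_num)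
  obtain ⟨s, hs⟩ : ∃ s : ℝ → ℝ, s = fun α => R * Real.cos (α - θ) - R * Real.cos (α2 - θ) :=
    ⟨_, rfl⟩
  have hs' : ∀ α, HasDerivAt s (-(R * Real.sin (α - θ))) α := by
    intro α
    have h1 : HasDerivAt (fun α : ℝ => α - θ) 1 α := (hasDerivAt_id α).sub_const θ
    have h2 := ((h1.cos).const_mul R).sub_const (R * Real.cos (α2 - θ))
    rw [hs]
    exact h2.congr_deriv (by ring)
  have hsc : Continuous s := by rw [hs]; exact hc1
  have hs0 : s α2 = 0 := by rw [hs]; simp
  have hd1 : ∀ α, HasDerivAt (fun α => f (s α) - (R * Real.sin (α - θ) - R * Real.sin (α2 - θ)))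
      (deriv f (s α) * (-(R * Real.sin (α - θ))) - R * Real.cos (α - θ)) α := by
    intro α
    have h1 : HasDerivAt (fun α : ℝ => α - θ) 1 α := (hasDerivAt_id α).sub_const θ
    have h2 := ((h1.sin).const_mul R).sub_const (R * Real.sin (α2 - θ))
    have h3 := ((hf1 (s α)).hasDerivAt.comp α (hs' α)).sub h2
    exact h3.congr_deriv (by ring)
  have hd2 : ∀ α, HasDerivAt (fun α => deriv f (s α) * (-(R * Real.sin (α - θ))) -
      R * Real.cos (α - θ))
      (deriv (deriv f) (s α) * (-(R * Real.sin (α - θ))) * (-(R * Real.sin (α - θ))) +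
        deriv f (s α) * (-(R * Real.cos (α - θ))) + R * Real.sin (α - θ)) α := by
    intro α
    have h1 : HasDerivAt (fun α : ℝ => α - θ) 1 α := (hasDerivAt_id α).sub_const θ
    have h2 : HasDerivAt (fun α : ℝ => -(R * Real.sin (α - θ))) (-(R * (Real.cos (α - θ) * 1))) α :=
      ((h1.sin).const_mul R).neg
    have h4 := ((h1.cos).const_mul R)
    have h3 := (((hf3 (s α)).hasDerivAt.comp α (hs' α)).mul h2).sub h4
    refine HasDerivAt.congr_deriv h3 ?_
    simp only [Function.comp_apply]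
    ring
  have e1 : deriv (fun α => f (s α) - (R * Real.sin (α - θ) - R * Real.sin (α2 - θ))) =
      fun α => deriv f (s α) * (-(R * Real.sin (α - θ))) - R * Real.cos (α - θ) :=
    funext fun α => (hd1 α).deriv
  have z0 : ∀ α ∈ Ioo a α2,
      (fun α => f (s α) - (R * Real.sin (α - θ) - R * Real.sin (α2 - θ))) α = 0 := by
    intro α hα
    simp only [hs]
    rw [(key α hα).1, sub_self]
  have z1 := AV_deriv z0
  rw [e1] at z1
  have z2 := AV_deriv z1
  have w1 := AV_zero ha2 (by
    have := hf3.continuous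
    fun_prop) z1
  have e2 : deriv (fun α => deriv f (s α) * (-(R * Real.sin (α - θ))) - R * Real.cos (α - θ)) =
      fun α => deriv (deriv f) (s α) * (-(R * Real.sin (α - θ))) * (-(R * Real.sin (α - θ))) +
        deriv f (s α) * (-(R * Real.cos (α - θ))) + R * Real.sin (α - θ) :=
    funext fun α => (hd2 α).deriv
  rw [e2] at z2
  have w2 := AV_zero ha2 (by
    have := hf3.continuous
    fun_prop) z2
  simp only [hs0, ← hβ] at w1 w2
  have w3 : Real.sin β ≤ 0 := by
    have h1 : α2 ∈ closure (Ioo a α2) := by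
      rw [closure_Ioo ha2.ne]
      exact right_mem_Icc.2 ha2.le
    have h2 : IsClosed {x : ℝ | Real.sin (x - θ) ≤ 0} :=
      isClosed_le (by fun_prop) continuous_const
    have h3 := closure_minimal (fun x hx => (key x hx).2.le) h2 h1
    rw [hβ]
    exact h3
  have hcs := Real.sin_sq_add_cos_sq β
  have w4 : Real.sin β ≠ 0 := by
    intro h0
    rw [h0] at w1 hcs
    have h1 : R * Real.cos β = 0 := by linarith
    have h2 : Real.cos β = 0 := by
      rcases mul_eq_zero.1 h1 with h | h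
      · exact absurd h hR.ne'
      · exact h
    rw [h2] at hcs
    norm_num at hcs
  have w5 : Real.sin β < 0 := lt_of_le_of_ne w3 w4
  constructor
  · have g1 : deriv f 0 * Real.sin β = -Real.cos β := by
      have : R * (deriv f 0 * Real.sin β + Real.cos β) = 0 := by linarith
      rcases mul_eq_zero.1 this with h | h
      · exact absurd h hR.ne'
      · linarith
    have g2 : deriv (deriv f) 0 * R * Real.sin β ^ 2 = deriv f 0 * Real.cos β - Real.sin β := by
      have : R * (deriv (deriv f) 0 * R * Real.sin β ^ 2 - (deriv f 0 * Real.cos β - Real.sin β)) =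
        0 := by linarith
      rcases mul_eq_zero.1 this with h | h
      · exact absurd h hR.ne'
      · linarith
    have g3 : deriv (deriv f) 0 * R * Real.sin β ^ 3 = -1 := by
      have e : deriv (deriv f) 0 * R * Real.sin β ^ 3 =
        (deriv (deriv f) 0 * R * Real.sin β ^ 2) * Real.sin β := by ring
      rw [e, g2]
      have : (deriv f 0 * Real.cos β - Real.sin β) * Real.sin β =
        (deriv f 0 * Real.sin β) * Real.cos β - Real.sin β ^ 2 := by ring
      rw [this, g1]
      linarith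
    by_contra hcon
    rw [not_lt] at hcon
    have g4 : Real.sin β ^ 3 < 0 := by
      have : Real.sin β ^ 3 = Real.sin β ^ 2 * Real.sin β := by ring
      rw [this]
      exact mul_neg_of_pos_of_neg (by positivity) w5
    have g5 : 0 ≤ deriv (deriv f) 0 * R * Real.sin β ^ 3 := by
      apply mul_nonneg_of_nonpos_of_nonpos _ g4.le
      exact mul_nonpos_of_nonpos_of_nonneg hcon hR.le
    linarith
  · have e : (cp R α2).1 * Real.sin θ - (cp R α2).2 * Real.cos θ = -(R * Real.sin β) := by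
      unfold cp
      rw [hβ, Real.sin_sub]
      ring
    rw [e]
    have := mul_neg_of_pos_of_neg hR w5
    linarith

end NS
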