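import Pool.Agent.helper29.NS.SpecC

set_option autoImplicit false

/-!
# Project ns, module KC: a function with zero gradient on the circle is constant there
-/

namespace NS

open MeasureTheory Filter Topology Set

theorem KC_polar (R : ℝ) (hR : 0 < R) (q : ℝ × ℝ) (hq : q ∈ Circ R) :
    ∃ θ : ℝ, q = (R * Real.cos θ, R * Real.sin θ) := by
  have hq' : q.1 ^ 2 + q.2 ^ 2 = R ^ 2 := hq
  have hn : ‖(⟨q.1, q.2⟩ : ℂ)‖ = R := by
    rw [← abs_of_pos hR, ← abs_of_nonneg (norm_nonneg _), ← sq_eq_sq_iff_abs_eq_abs,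
      ← Complex.normSq_eq_norm_sq, Complex.normSq_apply, ← hq']
    ring
  refine ⟨Complex.arg ⟨q.1, q.2⟩, ?_⟩
  have h1 := Complex.norm_mul_cos_arg (⟨q.1, q.2⟩ : ℂ)
  have h2 := Complex.norm_mul_sin_arg (⟨q.1, q.2⟩ : ℂ)
  rw [hn] at h1 h2
  rw [h1, h2]

theorem KC : KC_stmt := by
  intro R t f hR hf h q hq
  have hd : ∀ θ : ℝ, HasDerivAt (fun θ : ℝ => f (t, (R * Real.cos θ, R * Real.sin θ))) 0 θ := by
    intro θ
    have hmem : ((R * Real.cos θ, R * Real.sin θ) : ℝ × ℝ) ∈ Circ R := by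
      show (R * Real.cos θ) ^ 2 + (R * Real.sin θ) ^ 2 = R ^ 2
      have := Real.sin_sq_add_cos_sq θ
      nlinarith
    have h1 : HasDerivAt (fun θ : ℝ => ((t, (R * Real.cos θ, R * Real.sin θ)) : ℝ × ℝ × ℝ))
        (0, (R * (-Real.sin θ), R * Real.cos θ)) θ :=
      (hasDerivAt_const θ t).prodMk (((Real.hasDerivAt_cos θ).const_mul R).prodMk
        ((Real.hasDerivAt_sin θ).const_mul R))
    have h2 : HasFDerivAt f (fderiv ℝ f (t, (R * Real.cos θ, R * Real.sin θ)))
        (t, (R * Real.cos θ, R * Real.sin θ)) :=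
      ((hf.differentiable (by norm_num)) _).hasFDerivAt
    have h3 := h2.comp_hasDerivAt θ h1
    have h4 : fderiv ℝ f (t, (R * Real.cos θ, R * Real.sin θ))
        (0, (R * (-Real.sin θ), R * Real.cos θ)) = 0 := by
      have e : ((0, (R * (-Real.sin θ), R * Real.cos θ)) : ℝ × ℝ × ℝ) =
          (R * (-Real.sin θ)) • ((0, 1, 0) : ℝ × ℝ × ℝ) + (R * Real.cos θ) • (0, 0, 1) := by
        simp
      rw [e, map_add, map_smul, map_smul]
      have h5 := (h _ hmem).1
      have h6 := (h _ hmem).2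
      unfold dx at h5
      unfold dy at h6
      rw [h5, h6]
      simp
    rw [h4] at h3
    exact h3
  have hc : ∀ θ : ℝ, f (t, (R * Real.cos θ, R * Real.sin θ)) =
      f (t, (R * Real.cos 0, R * Real.sin 0)) := by
    intro θ
    exact is_const_of_deriv_eq_zero (fun θ => (hd θ).differentiableAt) (fun θ => (hd θ).deriv) θ 0
  obtain ⟨θ, hθ⟩ := KC_polar R hR q hq
  rw [hθ, hc θ]
  simp

end NS
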