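import Pool.Agent.helper29.NS.SpecC
import Pool.Agent.helper43.NS.UI
import Pool.Agent.helper70.NS.UL

set_option autoImplicit false

/-!
# Project ns, module ZI: unique continuation of the system on a time window in a connected open set
-/

namespace NS

open MeasureTheory Filter Topology Set

/-- Scaling of the time variable. -/
noncomputable def ZI_e (k : ℝ) (hk : k ≠ 0) : (ℝ × ℝ × ℝ) ≃L[ℝ] (ℝ × ℝ × ℝ) :=
  (ContinuousLinearEquiv.unitsEquivAut ℝ (Units.mk0 k hk)).prodCongr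
    (ContinuousLinearEquiv.refl ℝ (ℝ × ℝ))

theorem ZI_e_apply (k : ℝ) (hk : k ≠ 0) (z : ℝ × ℝ × ℝ) : ZI_e k hk z = (z.1 * k, z.2) := by
  unfold ZI_e
  rfl

theorem ZI_fderiv (k : ℝ) (hk : k ≠ 0) (f : ℝ × ℝ × ℝ → ℝ) (z u : ℝ × ℝ × ℝ) :
    fderiv ℝ (fun z => f (ZI_e k hk z)) z u = fderiv ℝ f (ZI_e k hk z) (ZI_e k hk u) := by
  have h := (ZI_e k hk).comp_right_fderiv (f := f) (x := z)
  have h2 : (fun z => f (ZI_e k hk z)) = f ∘ (ZI_e k hk) := rfl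
  rw [h2, h]
  rfl

/-- Scaling and translation. -/
noncomputable def ZI_T (k : ℝ) (hk : k ≠ 0) (T : ℝ × ℝ × ℝ) (f : ℝ × ℝ × ℝ → ℝ) :
    ℝ × ℝ × ℝ → ℝ := fun z => f (ZI_e k hk z + T)

theorem ZI_T_apply (k : ℝ) (hk : k ≠ 0) (t₀ : ℝ) (c : ℝ × ℝ) (f : ℝ × ℝ × ℝ → ℝ) (s : ℝ)
    (p : ℝ × ℝ) : ZI_T k hk (t₀, c) f (s, p) = f (s * k + t₀, p + c) := by
  unfold ZI_T
  rw [ZI_e_apply]
  rfl

theorem ZI_T_fderiv (k : ℝ) (hk : k ≠ 0) (T : ℝ × ℝ × ℝ) (f : ℝ × ℝ × ℝ → ℝ)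
    (z u : ℝ × ℝ × ℝ) :
    fderiv ℝ (ZI_T k hk T f) z u = fderiv ℝ f (ZI_e k hk z + T) (ZI_e k hk u) := by
  have h := ZI_fderiv k hk (fun z => f (z + T)) z u
  rw [fderiv_comp_add_right] at h
  exact h

theorem ZI_dt (k : ℝ) (hk : k ≠ 0) (T : ℝ × ℝ × ℝ) (f : ℝ × ℝ × ℝ → ℝ) (z : ℝ × ℝ × ℝ) :
    dt (ZI_T k hk T f) z = k * ZI_T k hk T (dt f) z := by
  show fderiv ℝ _ _ _ = k * fderiv ℝ _ _ _
  rw [ZI_T_fderiv]
  have h : ZI_e k hk (1, 0, 0) = k • ((1, 0, 0) : ℝ × ℝ × ℝ) := by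
    rw [ZI_e_apply]
    simp
  rw [h, map_smul, smul_eq_mul]

theorem ZI_dx (k : ℝ) (hk : k ≠ 0) (T : ℝ × ℝ × ℝ) (f : ℝ × ℝ × ℝ → ℝ) :
    dx (ZI_T k hk T f) = ZI_T k hk T (dx f) := by
  funext z
  show fderiv ℝ _ _ _ = fderiv ℝ _ _ _
  rw [ZI_T_fderiv]
  have h : ZI_e k hk (0, 1, 0) = ((0, 1, 0) : ℝ × ℝ × ℝ) := by
    rw [ZI_e_apply]
    simp
  rw [h]

theorem ZI_dy (k : ℝ) (hk : k ≠ 0) (T : ℝ × ℝ × ℝ) (f : ℝ × ℝ × ℝ → ℝ) :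
    dy (ZI_T k hk T f) = ZI_T k hk T (dy f) := by
  funext z
  show fderiv ℝ _ _ _ = fderiv ℝ _ _ _
  rw [ZI_T_fderiv]
  have h : ZI_e k hk (0, 0, 1) = ((0, 0, 1) : ℝ × ℝ × ℝ) := by
    rw [ZI_e_apply]
    simp
  rw [h]

theorem ZI_lap (k : ℝ) (hk : k ≠ 0) (T : ℝ × ℝ × ℝ) (f : ℝ × ℝ × ℝ → ℝ) (z : ℝ × ℝ × ℝ) :
    lap (ZI_T k hk T f) z = ZI_T k hk T (lap f) z := by
  unfold lap
  rw [ZI_dx, ZI_dy, ZI_dx, ZI_dy]
  rfl

theorem ZI_heat (k ν : ℝ) (hk : k ≠ 0) (T : ℝ × ℝ × ℝ) (f : ℝ × ℝ × ℝ → ℝ) (z : ℝ × ℝ × ℝ) :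
    heat (ν * k) (ZI_T k hk T f) z = k * ZI_T k hk T (heat ν f) z := by
  unfold heat
  rw [ZI_dt, ZI_dx, ZI_dy, ZI_dx, ZI_dy]
  unfold ZI_T
  ring

theorem ZI_XX (k : ℝ) (hk : k ≠ 0) (T : ℝ × ℝ × ℝ) (f g h : ℝ × ℝ × ℝ → ℝ) (z : ℝ × ℝ × ℝ) :
    XX (ZI_T k hk T f) (ZI_T k hk T g) (ZI_T k hk T h) z = ZI_T k hk T (XX f g h) z := by
  unfold XX
  rw [ZI_dx, ZI_dy, ZI_dx, ZI_dy, ZI_dx, ZI_dy]
  rfl

theorem ZI_loc (hZZ : ZZ_stmt) (c : ℝ × ℝ) (R ε α β ν K : ℝ) (v w ζ : ℝ × ℝ × ℝ → ℝ)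
    (hε : 0 < ε) (hR : ε < R) (hν : 0 < ν) (hv : ContDiffOn ℝ 2 v (Ioo α β ×ˢ Dsc c R))
    (hw : ContDiffOn ℝ 2 w (Ioo α β ×ˢ Dsc c R)) (hζ : ContDiffOn ℝ 2 ζ (Ioo α β ×ˢ Dsc c R))
    (hK : ∀ t ∈ Ioo α β, ∀ q ∈ Dsc c R,
      |lap v (t, q)| + |lap w (t, q)| + |heat ν ζ (t, q)| ≤ K * XX v w ζ (t, q))
    (h0 : ∀ t ∈ Ioo α β, ∀ q ∈ Dsc c ε, v (t, q) = 0 ∧ w (t, q) = 0 ∧ ζ (t, q) = 0) :
    ∀ t ∈ Ioo α β, ∀ q ∈ Dsc c R, v (t, q) = 0 ∧ w (t, q) = 0 ∧ ζ (t, q) = 0 := by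
  intro t₀ ht₀ q hq
  obtain ⟨k, hk⟩ : ∃ k, k = min (t₀ - α) (β - t₀) / 3 := ⟨_, rfl⟩
  have hk0 : 0 < k := by
    rw [hk]
    exact div_pos (lt_min (by linarith [ht₀.1]) (by linarith [ht₀.2])) (by norm_num)
  have hk1 : 3 * k ≤ t₀ - α := by
    rw [hk]
    linarith [min_le_left (t₀ - α) (β - t₀)]
  have hk2 : 3 * k ≤ β - t₀ := by
    rw [hk]
    linarith [min_le_right (t₀ - α) (β - t₀)]
  have hk' : k ≠ 0 := hk0.ne'
  have hI : ∀ s ∈ Ioo (-3 : ℝ) 3, s * k + t₀ ∈ Ioo α β := by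
    intro s hs
    have h1 : s * k < 3 * k := mul_lt_mul_of_pos_right hs.2 hk0
    have h2 : (-3) * k < s * k := mul_lt_mul_of_pos_right hs.1 hk0
    exact ⟨by linarith, by linarith⟩
  have hsm : ∀ f : ℝ × ℝ × ℝ → ℝ, ContDiffOn ℝ 2 f (Ioo α β ×ˢ Dsc c R) →
      ContDiffOn ℝ 2 (ZI_T k hk' (t₀, c) f) (Ioo (-3) 3 ×ˢ Dsc 0 R) := by
    intro f hf
    refine hf.comp (t := Ioo α β ×ˢ Dsc c R)
      (((ZI_e k hk').contDiff).add contDiff_const).contDiffOn ?_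
    rintro ⟨s, p⟩ ⟨hs, hp⟩
    show ZI_e k hk' (s, p) + (t₀, c) ∈ Ioo α β ×ˢ Dsc c R
    rw [ZI_e_apply]
    exact ⟨hI s hs, (UL_dsc c p R).2 hp⟩
  have h := hZZ R ε (ν * k) (max 1 k * K) (ZI_T k hk' (t₀, c) v) (ZI_T k hk' (t₀, c) w)
    (ZI_T k hk' (t₀, c) ζ) hε hR (mul_pos hν hk0) (hsm v hv) (hsm w hw) (hsm ζ hζ) ?_ ?_ (q - c) ?_
  · rw [ZI_T_apply, ZI_T_apply, ZI_T_apply] at h
    have e1 : (0 : ℝ) * k + t₀ = t₀ := by ring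
    have e2 : q - c + c = q := by simp
    rw [e1, e2] at h
    exact h
  · intro s hs p hp
    have hp' : p + c ∈ Dsc c R := (UL_dsc c p R).2 hp
    have h1 := hK (s * k + t₀) (hI s hs) (p + c) hp'
    rw [ZI_lap, ZI_lap, ZI_heat, ZI_XX, ZI_T_apply, ZI_T_apply, ZI_T_apply, ZI_T_apply, abs_mul,
      abs_of_pos hk0]
    have h2 : (1 : ℝ) ≤ max 1 k := le_max_left _ _
    have h3 : k ≤ max 1 k := le_max_right _ _
    have h4 : |lap v (s * k + t₀, p + c)| + |lap w (s * k + t₀, p + c)|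
        + k * |heat ν ζ (s * k + t₀, p + c)| ≤
        max 1 k * (|lap v (s * k + t₀, p + c)| + |lap w (s * k + t₀, p + c)|
        + |heat ν ζ (s * k + t₀, p + c)|) := by
      have a1 := abs_nonneg (lap v (s * k + t₀, p + c))
      have a2 := abs_nonneg (lap w (s * k + t₀, p + c))
      have a3 := abs_nonneg (heat ν ζ (s * k + t₀, p + c))
      nlinarith [mul_le_mul_of_nonneg_right h2 a1, mul_le_mul_of_nonneg_right h2 a2,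
        mul_le_mul_of_nonneg_right h3 a3]
    refine h4.trans ?_
    rw [mul_assoc]
    exact mul_le_mul_of_nonneg_left h1 (by linarith)
  · intro s hs p hp
    rw [ZI_T_apply, ZI_T_apply, ZI_T_apply]
    exact h0 _ (hI s hs) _ ((UL_dsc c p ε).2 hp)
  · rw [← UL_dsc c (q - c) R]
    simpa using hq

theorem ZI (hZZ : ZZ_stmt) : ZI_stmt := by
  intro O α β ν K v w ζ hO hOc hν hv hw hζ hineq ⟨U, hU, hUne, hUO, hUz⟩
  set S : Set (ℝ × ℝ) := {q | ∀ t ∈ Ioo α β, v (t, q) = 0 ∧ w (t, q) = 0 ∧ ζ (t, q) = 0} with hS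
  have hUS : U ⊆ interior S := interior_maximal (fun q hq t ht => hUz t ht q hq) hU
  have key : O ⊆ interior S := by
    apply hOc.subset_of_closure_inter_subset isOpen_interior
    · obtain ⟨q, hq⟩ := hUne
      exact ⟨q, hUO hq, hUS hq⟩
    · rintro q ⟨hqc, hqO⟩
      obtain ⟨ρ, hρ, hρO⟩ := Metric.isOpen_iff.1 hO q hqO
      have hR : 0 < ρ / 2 := by positivity
      obtain ⟨c, hcS, hcq⟩ := Metric.mem_closure_iff.1 hqc (ρ / 2 / 2) (by positivity)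
      obtain ⟨ε', hε', hε'S⟩ := Metric.isOpen_iff.1 isOpen_interior c hcS
      have hsub : Dsc c (ρ / 2) ⊆ O := by
        intro z hz
        apply hρO
        have h1 := UI_Dsc_sub c (ρ / 2) hR hz
        rw [Metric.mem_ball] at h1 ⊢
        have h2 := dist_triangle z c q
        rw [dist_comm c q] at h2
        linarith
      set ε : ℝ := min ε' (ρ / 4) with hε
      have hε0 : 0 < ε := lt_min hε' (by positivity)
      have hε1 : ε ≤ ρ / 4 := min_le_right _ _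
      have hz := ZI_loc hZZ c (ρ / 2) ε α β ν K v w ζ hε0 (by linarith) hν
        (hv.mono (prod_mono_right hsub)) (hw.mono (prod_mono_right hsub))
        (hζ.mono (prod_mono_right hsub))
        (fun t ht z hz => hineq t ht z (hsub hz))
        (fun t ht z hz => by
          have h1 := UI_Dsc_sub c ε hε0 hz
          have h2 : z ∈ Metric.ball c ε' := Metric.ball_subset_ball (min_le_left _ _) h1
          exact interior_subset (hε'S h2) t ht)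
      have h3 : Dsc c (ρ / 2) ⊆ interior S :=
        interior_maximal (fun z hz' t ht => hz t ht z hz') (UI_Dsc_open _ _)
      exact h3 (UI_sub_Dsc c q (ρ / 2) hR hcq)
  intro t ht q hq
  exact interior_subset (key hq) t ht

end NS
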